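import Mathlib

/-!
The functional `Mx` (maximum over a family of sets of a sum of weights) and its behaviour when the
points are replaced by jittered decreasing chains.
-/

namespace Pool.Agent.Helper95.RL

open Finset Function
open scoped BigOperators

section basic

theorem sq_expect_le {ι : Type*} [Fintype ι] (f : ι → ℝ) : (𝔼 i, f i) ^ 2 ≤ 𝔼 i, f i ^ 2 := by
  rcases isEmpty_or_nonempty ι with h | h
  · simp
  · have h0 : (0 : ℝ) < Fintype.card ι := by exact_mod_cast Fintype.card_pos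
    rw [Fintype.expect_eq_sum_div_card, Fintype.expect_eq_sum_div_card, div_pow,
      div_le_div_iff₀ (by positivity) h0]
    have h1 : (∑ i, f i) ^ 2 ≤ Fintype.card ι * ∑ i, f i ^ 2 := by
      have := sq_sum_le_card_mul_sum_sq (s := (Finset.univ : Finset ι)) (f := f)
      simpa using this
    nlinarith

theorem cauchy {ι : Type*} [Fintype ι] (f g : ι → ℝ) :
    𝔼 i, f i * g i ≤ √(𝔼 i, f i ^ 2) * √(𝔼 i, g i ^ 2) := by
  rcases isEmpty_or_nonempty ι with h | h
  · simp
  · have h0 : (0 : ℝ) < Fintype.card ι := by exact_mod_cast Fintype.card_pos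
    rw [← Real.sqrt_mul (Finset.expect_nonneg (fun i _ => sq_nonneg _))]
    apply Real.le_sqrt_of_sq_le
    rw [Fintype.expect_eq_sum_div_card, Fintype.expect_eq_sum_div_card,
      Fintype.expect_eq_sum_div_card, div_pow, div_mul_div_comm, ← sq]
    gcongr
    exact Finset.sum_mul_sq_le_sq_mul_sq _ _ _

theorem expect_apply {Y K : Type*} [Fintype Y] [DecidableEq Y] [Fintype K] [Nonempty K]
    (y : Y) (f : K → ℝ) : 𝔼 u : Y → K, f (u y) = 𝔼 k, f k := by
  classical
  let e : (Y → K) ≃ ({z : Y // z = y} → K) × ({z : Y // ¬ z = y} → K) :=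
    Equiv.piEquivPiSubtypeProd (fun z => z = y) (fun _ => K)
  have h1 : 𝔼 u : Y → K, f (u y) =
      𝔼 p : ({z : Y // z = y} → K) × ({z : Y // ¬ z = y} → K), f (p.1 ⟨y, rfl⟩) :=
    Fintype.expect_equiv e _ _ (fun _ => rfl)
  rw [h1, ← Finset.univ_product_univ, Finset.expect_product]
  simp only [Fintype.expect_const]
  let e2 : ({z : Y // z = y} → K) ≃ K := Equiv.funUnique {z : Y // z = y} K
  exact Fintype.expect_equiv e2 _ _ (fun p => by
    simp only [e2, Equiv.funUnique_apply]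
    rfl)

end basic

section Mx

variable {X Y P : Type*} [Fintype P] [Nonempty P]

/-- the maximal weight of the sets `I p`, where the point `x` has weight `W x (s x)` -/
noncomputable def Mx (s : X → Y) (I : P → Finset X) (W : X → Y → ℝ) : ℝ :=
  Finset.univ.sup' Finset.univ_nonempty (fun p => ∑ x ∈ I p, W x (s x))

theorem le_Mx (s : X → Y) (I : P → Finset X) (W : X → Y → ℝ) (p : P) :
    ∑ x ∈ I p, W x (s x) ≤ Mx s I W :=
  Finset.le_sup' (fun p => ∑ x ∈ I p, W x (s x)) (Finset.mem_univ p)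

theorem Mx_le {s : X → Y} {I : P → Finset X} {W : X → Y → ℝ} {c : ℝ}
    (h : ∀ p, ∑ x ∈ I p, W x (s x) ≤ c) : Mx s I W ≤ c :=
  Finset.sup'_le _ _ (fun p _ => h p)

theorem exists_Mx (s : X → Y) (I : P → Finset X) (W : X → Y → ℝ) :
    ∃ p, Mx s I W = ∑ x ∈ I p, W x (s x) := by
  obtain ⟨p, -, hp⟩ := Finset.exists_mem_eq_sup' Finset.univ_nonempty
    (fun p => ∑ x ∈ I p, W x (s x))
  exact ⟨p, hp⟩

theorem Mx_nonneg {s : X → Y} {I : P → Finset X} {W : X → Y → ℝ} (h : ∀ x, 0 ≤ W x (s x)) :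
    0 ≤ Mx s I W := by
  obtain ⟨p⟩ := ‹Nonempty P›
  exact (Finset.sum_nonneg (fun x _ => h x)).trans (le_Mx s I W p)

theorem Mx_congr {s : X → Y} {I : P → Finset X} {W W' : X → Y → ℝ}
    (h : ∀ x, W x (s x) = W' x (s x)) : Mx s I W = Mx s I W' := by
  unfold Mx
  simp only [h]

theorem Mx_mono {s : X → Y} {I : P → Finset X} {W W' : X → Y → ℝ}
    (h : ∀ x, W x (s x) ≤ W' x (s x)) : Mx s I W ≤ Mx s I W' :=
  Mx_le (fun p => (Finset.sum_le_sum (fun x _ => h x)).trans (le_Mx s I W' p))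

theorem Mx_add {s : X → Y} {I : P → Finset X} {W W' W'' : X → Y → ℝ}
    (h : ∀ x, W x (s x) ≤ W' x (s x) + W'' x (s x)) : Mx s I W ≤ Mx s I W' + Mx s I W'' := by
  apply Mx_le
  intro p
  calc ∑ x ∈ I p, W x (s x) ≤ ∑ x ∈ I p, (W' x (s x) + W'' x (s x)) :=
        Finset.sum_le_sum (fun x _ => h x)
    _ = ∑ x ∈ I p, W' x (s x) + ∑ x ∈ I p, W'' x (s x) := Finset.sum_add_distrib
    _ ≤ _ := add_le_add (le_Mx s I W' p) (le_Mx s I W'' p)

theorem Mx_sum_le {ι : Type*} (t : Finset ι) {s : X → Y} {I : P → Finset X} (c : ι → ℝ)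
    (hc : ∀ i ∈ t, 0 ≤ c i) (W : ι → X → Y → ℝ) :
    Mx s I (fun x y => ∑ i ∈ t, c i * W i x y) ≤ ∑ i ∈ t, c i * Mx s I (W i) := by
  apply Mx_le
  intro p
  rw [Finset.sum_comm]
  apply Finset.sum_le_sum
  intro i hi
  rw [← Finset.mul_sum]
  exact mul_le_mul_of_nonneg_left (le_Mx s I (W i) p) (hc i hi)

theorem Mx_mul {s : X → Y} {I : P → Finset X} {c : ℝ} (hc : 0 ≤ c) (W : X → Y → ℝ) :
    Mx s I (fun x y => c * W x y) ≤ c * Mx s I W := by
  apply Mx_le
  intro p
  rw [← Finset.mul_sum]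
  exact mul_le_mul_of_nonneg_left (le_Mx s I W p) hc

end Mx

/-- the position in a jittered decreasing chain: the chain of length `b` is shifted by `s`; the
element number `h` of the chain is at the height `b - 1 + s - h` -/
def jit {b : ℕ} (s h : Fin b) : Fin (2 * b) := ⟨b - 1 + s - h, by omega⟩

/-- all heights, enumerated by the shift and a bit -/
def full {b : ℕ} (g : Fin b) (x : Fin b × Bool) : Fin (2 * b) :=
  ⟨(b - 1 + x.1 - g + (if x.2 then b else 0)) % (2 * b), Nat.mod_lt _ (by have := g.2; omega)⟩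

theorem full_false {b : ℕ} (g t : Fin b) : full g (t, false) = jit t g := by
  apply Fin.ext
  simp only [full, jit, Bool.false_eq_true, if_false, add_zero]
  exact Nat.mod_eq_of_lt (by omega)

theorem full_bijective {b : ℕ} (g : Fin b) : Bijective (full g) := by
  rw [Fintype.bijective_iff_injective_and_card]
  constructor
  · rintro ⟨t, e⟩ ⟨t', e'⟩ h
    have h1 := congrArg Fin.val h
    simp only [full] at h1
    have ht := t.2
    have ht' := t'.2
    have hg := g.2
    have key : ∀ (c : ℕ), c < 2 * b → (c + b) % (2 * b) = if c < b then c + b else c - b := by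
      intro c hc
      split_ifs with h2
      · exact Nat.mod_eq_of_lt (by omega)
      · rw [Nat.mod_eq_sub_mod (by omega), Nat.mod_eq_of_lt (by omega)]
        omega
    have hc : b - 1 + t.1 - g.1 < 2 * b := by omega
    have hc' : b - 1 + t'.1 - g.1 < 2 * b := by omega
    cases e <;> cases e'
    · simp only [Bool.false_eq_true, if_false, add_zero] at h1
      rw [Nat.mod_eq_of_lt hc, Nat.mod_eq_of_lt hc'] at h1
      have : t = t' := Fin.ext (by omega)
      rw [this]
    · simp only [Bool.false_eq_true, if_false, if_true, add_zero] at h1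
      rw [Nat.mod_eq_of_lt hc, key _ hc'] at h1
      split_ifs at h1 <;> omega
    · simp only [Bool.false_eq_true, if_false, if_true, add_zero] at h1
      rw [Nat.mod_eq_of_lt hc', key _ hc] at h1
      split_ifs at h1 <;> omega
    · simp only [if_true] at h1
      rw [key _ hc, key _ hc'] at h1
      have : t = t' := Fin.ext (by split_ifs at h1 <;> omega)
      rw [this]
  · simp
    ring

/-- removing the windows costs a factor `2` -/
theorem swap {X Y P : Type*} [Fintype Y] [DecidableEq Y] [Fintype P] [Nonempty P]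
    (s : X → Y) (I : P → Finset X) {b : ℕ} (hb : 0 < b) (G : Y → Fin b) (a : X → ℝ)
    (ha : ∀ x, 0 ≤ a x) (v : Y → Fin (2 * b) → ℝ) (hv : ∀ y u, 0 ≤ v y u) :
    𝔼 t : Y → Fin b, Mx s I (fun x y => a x * v y (jit (t y) (G y))) ≤
      2 * 𝔼 u : Y → Fin (2 * b), Mx s I (fun x y => a x * v y (u y)) := by
  have : NeZero b := ⟨hb.ne'⟩
  have : Nonempty (Fin b) := ⟨0⟩
  set F : (Y → Fin (2 * b)) → ℝ := fun u => Mx s I (fun x y => a x * v y (u y)) with hF
  have e1 : 𝔼 τ : (Y → Fin b) × (Y → Bool), F (fun y => full (G y) (τ.1 y, τ.2 y)) =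
      𝔼 u, F u := by
    let e : ((Y → Fin b) × (Y → Bool)) ≃ (Y → Fin (2 * b)) :=
      (Equiv.arrowProdEquivProdArrow _ _ _).symm.trans
        (Equiv.piCongrRight (fun y => Equiv.ofBijective _ (full_bijective (G y))))
    exact Fintype.expect_equiv e _ _ (fun _ => rfl)
  have e2 : 𝔼 τ : (Y → Fin b) × (Y → Bool), F (fun y => full (G y) (τ.1 y, !(τ.2 y))) =
      𝔼 u, F u := by
    rw [← e1]
    let e : ((Y → Fin b) × (Y → Bool)) ≃ ((Y → Fin b) × (Y → Bool)) :=
      Equiv.prodCongr (Equiv.refl _) (Equiv.piCongrRight (fun _ => Equiv.boolNot))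
    exact Fintype.expect_equiv e _ _ (fun _ => rfl)
  have e3 : 𝔼 t : Y → Fin b, Mx s I (fun x y => a x * v y (jit (t y) (G y))) =
      𝔼 τ : (Y → Fin b) × (Y → Bool), Mx s I (fun x y => a x * v y (jit (τ.1 y) (G y))) := by
    rw [← Finset.univ_product_univ, Finset.expect_product]
    simp
  rw [e3]
  calc 𝔼 τ : (Y → Fin b) × (Y → Bool), Mx s I (fun x y => a x * v y (jit (τ.1 y) (G y)))
      ≤ 𝔼 τ : (Y → Fin b) × (Y → Bool), (F (fun y => full (G y) (τ.1 y, τ.2 y)) +
        F (fun y => full (G y) (τ.1 y, !(τ.2 y)))) := by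
        apply Finset.expect_le_expect
        intro τ _
        apply Mx_add
        intro x
        rw [← mul_add]
        apply mul_le_mul_of_nonneg_left _ (ha x)
        rw [← full_false]
        have h1 := hv (s x) (full (G (s x)) (τ.1 (s x), true))
        have h2 : ∀ e : Bool, v (s x) (full (G (s x)) (τ.1 (s x), false)) ≤
            v (s x) (full (G (s x)) (τ.1 (s x), e)) +
              v (s x) (full (G (s x)) (τ.1 (s x), !e)) := by
          intro e
          cases e
          · simp only [Bool.not_false]; linarith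
          · simp only [Bool.not_true]; linarith
        exact h2 (τ.2 (s x))
    _ = 2 * 𝔼 u, F u := by
        rw [Finset.expect_add_distrib, e1, e2]; ring

/-- the average over independent choices -/
theorem sum_prod_marginal {X K : Type*} [Fintype X] [DecidableEq X] [Fintype K] [DecidableEq K]
    (Q : X → K → ℝ) (hQ : ∀ x, ∑ g, Q x g = 1) (x : X) (g : K) :
    ∑ G : X → K, (∏ z, Q z (G z)) * (if G x = g then 1 else 0) = Q x g := by
  have h1 : ∀ G : X → K, (∏ z, Q z (G z)) * (if G x = g then (1 : ℝ) else 0) =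
      ∏ z, (Q z (G z) * (if z = x then (if G z = g then 1 else 0) else 1)) := by
    intro G
    rw [Finset.prod_mul_distrib]
    congr 1
    rw [Finset.prod_ite_eq' Finset.univ x (fun z => if G z = g then (1 : ℝ) else 0)]
    simp
  simp only [h1]
  rw [← Fintype.piFinset_univ, ← Finset.prod_univ_sum (fun _ => Finset.univ)
    (fun z k => Q z k * (if z = x then (if k = g then (1 : ℝ) else 0) else 1))]
  rw [Finset.prod_eq_single x]
  · simp
  · intro z _ hz
    simp [hz, hQ]
  · intro h; exact absurd (Finset.mem_univ x) h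

/-- The blow-up lemma: the points are replaced by jittered decreasing chains of length `b`; only the
mean weight of the chain of `x` matters. -/
theorem blow {Ω X Y P : Type*} [Fintype Ω] [Nonempty Ω] [Fintype X] [Nonempty X] [DecidableEq X]
    [Fintype Y] [DecidableEq Y] [Nonempty Y] [Fintype P] [Nonempty P]
    (σ : Ω → X → Y) (hσ : ∀ ω, Injective (σ ω)) (I : Ω → P → Finset X) {ρ : ℝ} (hρ : 0 ≤ ρ)
    (hop : ∀ (w : X → ℝ) (v : Y → ℝ), (∀ x, 0 ≤ w x) → (∀ y, 0 ≤ v y) →
      𝔼 ω, Mx (σ ω) (I ω) (fun x y => w x * v y) ≤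
        ρ * Fintype.card X * √(𝔼 x, w x ^ 2) * √(𝔼 y, v y ^ 2))
    {b : ℕ} (hb : 0 < b) (θ : X → Fin b → ℝ) (hθ : ∀ x g, 0 ≤ θ x g)
    (v : Y → Fin (2 * b) → ℝ) (hv : ∀ y u, 0 ≤ v y u) :
    𝔼 ω, 𝔼 t : Y → Fin b, Mx (σ ω) (I ω) (fun x y => ∑ g, θ x g * v y (jit (t y) g)) ≤
      2 * ρ * Fintype.card X * b * √(𝔼 x, (𝔼 g, θ x g) ^ 2) * √(𝔼 y, 𝔼 u, v y u ^ 2) := by
  classical
  have : NeZero b := ⟨hb.ne'⟩
  have : Nonempty (Fin b) := ⟨0⟩
  have : Nonempty (Fin (2 * b)) := ⟨⟨0, by omega⟩⟩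
  have hb0 : (0 : ℝ) < b := by exact_mod_cast hb
  set a : X → ℝ := fun x => ∑ g, θ x g with ha
  have ha0 : ∀ x, 0 ≤ a x := fun x => Finset.sum_nonneg (fun g _ => hθ x g)
  set Q : X → Fin b → ℝ := fun x g => if a x = 0 then 1 / b else θ x g / a x with hQ
  have hQ0 : ∀ x g, 0 ≤ Q x g := by
    intro x g
    simp only [hQ]
    split_ifs
    · positivity
    · exact div_nonneg (hθ x g) (ha0 x)
  have hQ1 : ∀ x, ∑ g, Q x g = 1 := by
    intro x
    simp only [hQ]
    split_ifs with h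
    · simp
    · rw [← Finset.sum_div]
      exact div_self h
  have hθQ : ∀ x g, θ x g = a x * Q x g := by
    intro x g
    simp only [hQ]
    split_ifs with h
    · have h1 : ∀ g ∈ Finset.univ, θ x g = 0 :=
        (Finset.sum_eq_zero_iff_of_nonneg (fun g _ => hθ x g)).mp h
      rw [h1 g (Finset.mem_univ g), h, zero_mul]
    · field_simp
  -- the bound for point masses
  have key : ∀ G : X → Fin b,
      𝔼 ω, 𝔼 t : Y → Fin b, Mx (σ ω) (I ω) (fun x y => a x * v y (jit (t y) (G x))) ≤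
      2 * ρ * Fintype.card X * √(𝔼 x, (a x) ^ 2) * √(𝔼 y, 𝔼 u, v y u ^ 2) := by
    intro G
    have h1 : ∀ ω, 𝔼 t : Y → Fin b, Mx (σ ω) (I ω) (fun x y => a x * v y (jit (t y) (G x))) ≤
        2 * 𝔼 u : Y → Fin (2 * b), Mx (σ ω) (I ω) (fun x y => a x * v y (u y)) := by
      intro ω
      have h2 := swap (σ ω) (I ω) hb (fun y => if h : ∃ x, σ ω x = y then G h.choose else 0)
        a ha0 v hv
      refine le_trans (le_of_eq ?_) h2
      apply Finset.expect_congr rfl
      intro t _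
      apply Mx_congr
      intro x
      have h3 : ∃ x', σ ω x' = σ ω x := ⟨x, rfl⟩
      have h4 : h3.choose = x := hσ ω h3.choose_spec
      simp only [h3, dite_true, h4]
    calc 𝔼 ω, 𝔼 t : Y → Fin b, Mx (σ ω) (I ω) (fun x y => a x * v y (jit (t y) (G x)))
        ≤ 𝔼 ω, 2 * 𝔼 u : Y → Fin (2 * b), Mx (σ ω) (I ω) (fun x y => a x * v y (u y)) :=
          Finset.expect_le_expect (fun ω _ => h1 ω)
      _ = 2 * 𝔼 u : Y → Fin (2 * b), 𝔼 ω, Mx (σ ω) (I ω) (fun x y => a x * v y (u y)) := by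
          rw [← Finset.mul_expect, Finset.expect_comm]
      _ ≤ 2 * 𝔼 u : Y → Fin (2 * b), (ρ * Fintype.card X * √(𝔼 x, a x ^ 2)) *
          √(𝔼 y, v y (u y) ^ 2) := by
          gcongr with u _
          exact hop a (fun y => v y (u y)) ha0 (fun y => hv y (u y))
      _ = 2 * (ρ * Fintype.card X * √(𝔼 x, a x ^ 2)) *
          𝔼 u : Y → Fin (2 * b), √(𝔼 y, v y (u y) ^ 2) := by
          rw [← Finset.mul_expect]; ring
      _ ≤ 2 * (ρ * Fintype.card X * √(𝔼 x, a x ^ 2)) * √(𝔼 y, 𝔼 u, v y u ^ 2) := by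
          gcongr
          apply Real.le_sqrt_of_sq_le
          refine (sq_expect_le _).trans (le_of_eq ?_)
          have h6 : ∀ u : Y → Fin (2 * b), (√(𝔼 y, v y (u y) ^ 2)) ^ 2 = 𝔼 y, v y (u y) ^ 2 :=
            fun u => Real.sq_sqrt (Finset.expect_nonneg (fun y _ => sq_nonneg _))
          simp only [h6]
          rw [Finset.expect_comm]
          apply Finset.expect_congr rfl
          intro y _
          exact expect_apply y (fun k => v y k ^ 2)
      _ = _ := by ring
  -- the general case is an average of point masses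
  set lam : (X → Fin b) → ℝ := fun G => ∏ z, Q z (G z) with hlam
  have hlam0 : ∀ G, 0 ≤ lam G := fun G => Finset.prod_nonneg (fun z _ => hQ0 z (G z))
  have hlam1 : ∑ G, lam G = 1 := by
    rw [hlam, ← Fintype.piFinset_univ, ← Finset.prod_univ_sum]
    simp [hQ1]
  have hmix : ∀ ω (t : Y → Fin b), Mx (σ ω) (I ω) (fun x y => ∑ g, θ x g * v y (jit (t y) g)) ≤
      ∑ G, lam G * Mx (σ ω) (I ω) (fun x y => a x * v y (jit (t y) (G x))) := by
    intro ω t
    refine le_trans (le_of_eq ?_) (Mx_sum_le Finset.univ lam (fun G _ => hlam0 G)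
      (fun G x y => a x * v y (jit (t y) (G x))))
    apply Mx_congr
    intro x
    have h1 : ∀ G : X → Fin b, lam G * (a x * v (σ ω x) (jit (t (σ ω x)) (G x))) =
        ∑ g, a x * v (σ ω x) (jit (t (σ ω x)) g) * (lam G * (if G x = g then 1 else 0)) := by
      intro G
      rw [Finset.sum_eq_single (G x)]
      · simp; ring
      · intro g _ hg
        rw [if_neg (Ne.symm hg)]; ring
      · intro h; exact absurd (Finset.mem_univ _) h
    simp only [h1]
    rw [Finset.sum_comm]
    apply Finset.sum_congr rfl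
    intro g _
    rw [← Finset.mul_sum, sum_prod_marginal Q hQ1 x g, hθQ]
    ring
  calc 𝔼 ω, 𝔼 t : Y → Fin b, Mx (σ ω) (I ω) (fun x y => ∑ g, θ x g * v y (jit (t y) g))
      ≤ 𝔼 ω, 𝔼 t : Y → Fin b, ∑ G, lam G *
          Mx (σ ω) (I ω) (fun x y => a x * v y (jit (t y) (G x))) :=
        Finset.expect_le_expect (fun ω _ => Finset.expect_le_expect (fun t _ => hmix ω t))
    _ = ∑ G, lam G * 𝔼 ω, 𝔼 t : Y → Fin b,
          Mx (σ ω) (I ω) (fun x y => a x * v y (jit (t y) (G x))) := by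
        simp only [Finset.expect_sum_comm, Finset.mul_expect]
    _ ≤ ∑ G, lam G * (2 * ρ * Fintype.card X * √(𝔼 x, (a x) ^ 2) * √(𝔼 y, 𝔼 u, v y u ^ 2)) := by
        gcongr with G _
        · exact hlam0 G
        · exact key G
    _ = 2 * ρ * Fintype.card X * √(𝔼 x, (a x) ^ 2) * √(𝔼 y, 𝔼 u, v y u ^ 2) := by
        rw [← Finset.sum_mul, hlam1, one_mul]
    _ = _ := by
        have h1 : √(𝔼 x, (a x) ^ 2) = b * √(𝔼 x, (𝔼 g, θ x g) ^ 2) := by
          have h2 : 𝔼 x, (a x) ^ 2 = (b : ℝ) ^ 2 * 𝔼 x, (𝔼 g, θ x g) ^ 2 := by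
            rw [Finset.mul_expect]
            apply Finset.expect_congr rfl
            intro x _
            rw [Fintype.expect_eq_sum_div_card, Fintype.card_fin, div_pow, ha]
            field_simp
          rw [h2, Real.sqrt_mul (by positivity), Real.sqrt_sq hb0.le]
        rw [h1]
        ring

end Pool.Agent.Helper95.RL
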