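import Mathlib

/-!
Finite spaces (with the uniform measure) on which all functions which are Lipschitz for a given
`distance` are sub-Gaussian; products; maxima of finite families.
-/

namespace Pool.Agent.Helper95.RL

open Finset
open scoped BigOperators

/-- `SubG d V`: every function on the finite space `Ω` which is `1`-Lipschitz for `d` is
sub-Gaussian with variance proxy `V` for the uniform measure. -/
def SubG {Ω : Type*} [Fintype Ω] (d : Ω → Ω → ℝ) (V : ℝ) : Prop :=
  ∀ f : Ω → ℝ, (∀ a b, f a - f b ≤ d a b) → ∀ t : ℝ,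
    𝔼 a, Real.exp (t * (f a - 𝔼 b, f b)) ≤ Real.exp (t ^ 2 * V / 2)

section

variable {Ω Ω' : Type*} [Fintype Ω] [Fintype Ω']

theorem SubG.mono {d d' : Ω → Ω → ℝ} {V V' : ℝ} (h : SubG d V) (hd : ∀ a b, d' a b ≤ d a b)
    (hV : V ≤ V') : SubG d' V' := by
  intro f hf t
  refine (h f (fun a b => (hf a b).trans (hd a b)) t).trans ?_
  apply Real.exp_le_exp.mpr
  have : 0 ≤ t ^ 2 := sq_nonneg t
  nlinarith

/-- transport -/
theorem SubG.equiv {d : Ω → Ω → ℝ} {V : ℝ} (h : SubG d V) (e : Ω' ≃ Ω) :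
    SubG (fun a b => d (e a) (e b)) V := by
  intro f hf t
  have h1 := h (fun a => f (e.symm a)) (fun a b => by
    have := hf (e.symm a) (e.symm b)
    simpa using this) t
  have h2 : 𝔼 b, f (e.symm b) = 𝔼 b, f b :=
    Fintype.expect_equiv e.symm _ _ (fun _ => rfl)
  rw [h2] at h1
  have h3 : 𝔼 a, Real.exp (t * (f (e.symm a) - 𝔼 b, f b)) = 𝔼 a, Real.exp (t * (f a - 𝔼 b, f b)) :=
    Fintype.expect_equiv e.symm _ _ (fun _ => rfl)
  rwa [h3] at h1

/-- scaling -/
theorem SubG.scale [Nonempty Ω] {d : Ω → Ω → ℝ} {V : ℝ} (h : SubG d V) {c : ℝ} (hc : 0 ≤ c) :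
    SubG (fun a b => c * d a b) (c ^ 2 * V) := by
  rcases hc.eq_or_lt with rfl | hc
  · intro f hf t
    have h1 : ∀ a b, f a = f b := fun a b => by
      have h2 := hf a b
      have h3 := hf b a
      simp only [zero_mul] at h2 h3
      linarith
    obtain ⟨a0⟩ := ‹Nonempty Ω›
    have h2 : ∀ a, f a = f a0 := fun a => h1 a a0
    simp [h2]
  · intro f hf t
    have h1 := h (fun a => f a / c) (fun a b => by
      have := hf a b
      rw [← sub_div, div_le_iff₀ hc]
      linarith) (c * t)
    have h2 : 𝔼 b, f b / c = (𝔼 b, f b) / c := by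
      rw [← Finset.expect_div]
    rw [h2] at h1
    have h3 : ∀ a, c * t * (f a / c - (𝔼 b, f b) / c) = t * (f a - 𝔼 b, f b) := by
      intro a; field_simp
    simp only [h3] at h1
    refine h1.trans (le_of_eq ?_)
    congr 1; ring

/-- one coordinate -/
theorem subG_const [Nonempty Ω] {d : Ω → Ω → ℝ} {M : ℝ} (hM : 0 ≤ M) (hd : ∀ a b, d a b ≤ M) :
    SubG d (M ^ 2) := by
  intro f hf t
  have hosc : ∀ a b, f a - f b ≤ M := fun a b => (hf a b).trans (hd a b)
  set m := 𝔼 b, f b with hm
  have hup : ∀ a, f a - m ≤ M := by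
    intro a
    have h1 : m = 𝔼 b, f b := rfl
    have h2 : f a - m = 𝔼 b, (f a - f b) := by
      rw [Finset.expect_sub_distrib, h1]
      simp
    rw [h2]
    calc 𝔼 b, (f a - f b) ≤ 𝔼 _b : Ω, M := Finset.expect_le_expect (fun b _ => hosc a b)
      _ = M := Fintype.expect_const M
  have hlo : ∀ a, -M ≤ f a - m := by
    intro a
    have h2 : f a - m = 𝔼 b, (f a - f b) := by
      rw [Finset.expect_sub_distrib, hm]
      simp
    rw [h2]
    calc -M = 𝔼 _b : Ω, (-M) := (Fintype.expect_const (-M)).symm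
      _ ≤ 𝔼 b, (f a - f b) := Finset.expect_le_expect (fun b _ => by linarith [hosc b a])
  rcases hM.eq_or_lt with rfl | hM
  · have h0 : ∀ a, f a - m = 0 := fun a => le_antisymm (hup a) (by simpa using hlo a)
    simp [h0]
  · have key : ∀ x : ℝ, -M ≤ x → x ≤ M → Real.exp (t * x) ≤
        (M - x) / (2 * M) * Real.exp (-(t * M)) + (M + x) / (2 * M) * Real.exp (t * M) := by
      intro x h1 h2
      have hc := convexOn_exp.2 (Set.mem_univ (-(t * M))) (Set.mem_univ (t * M))
        (show 0 ≤ (M - x) / (2 * M) by apply div_nonneg <;> linarith)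
        (show 0 ≤ (M + x) / (2 * M) by apply div_nonneg <;> linarith)
        (show (M - x) / (2 * M) + (M + x) / (2 * M) = 1 by field_simp; ring)
      simp only [smul_eq_mul] at hc
      refine le_trans (le_of_eq ?_) hc
      congr 1
      field_simp
      ring
    have hmean : 𝔼 a, (f a - m) = 0 := by
      rw [Finset.expect_sub_distrib, hm]
      simp
    calc 𝔼 a, Real.exp (t * (f a - m))
        ≤ 𝔼 a, ((M - (f a - m)) / (2 * M) * Real.exp (-(t * M)) +
          (M + (f a - m)) / (2 * M) * Real.exp (t * M)) :=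
          Finset.expect_le_expect (fun a _ => key _ (hlo a) (hup a))
      _ = 𝔼 a, (Real.cosh (t * M) + (f a - m) *
          ((Real.exp (t * M) - Real.exp (-(t * M))) / (2 * M))) := by
          apply Finset.expect_congr rfl
          intro a _
          rw [Real.cosh_eq]
          field_simp
          ring
      _ = Real.cosh (t * M) := by
          rw [Finset.expect_add_distrib, ← Finset.expect_mul, hmean, Fintype.expect_const]
          ring
      _ ≤ Real.exp ((t * M) ^ 2 / 2) := Real.cosh_le_exp_half_sq _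
      _ = Real.exp (t ^ 2 * M ^ 2 / 2) := by congr 1; ring

/-- products -/
theorem SubG.prod [Nonempty Ω] [Nonempty Ω'] {d : Ω → Ω → ℝ} {d' : Ω' → Ω' → ℝ} {V V' : ℝ}
    (h : SubG d V) (h' : SubG d' V') (h0 : ∀ a, d a a = 0) (h0' : ∀ a, d' a a = 0) :
    SubG (fun a b : Ω × Ω' => d a.1 b.1 + d' a.2 b.2) (V + V') := by
  intro f hf t
  set g : Ω → ℝ := fun a => 𝔼 b, f (a, b) with hg
  have hmean : 𝔼 a, f a = 𝔼 a, g a := by
    rw [← Finset.univ_product_univ, Finset.expect_product]
  have h1 : ∀ a, 𝔼 b, Real.exp (t * (f (a, b) - g a)) ≤ Real.exp (t ^ 2 * V' / 2) := by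
    intro a
    refine h' (fun b => f (a, b)) (fun b c => ?_) t
    have := hf (a, b) (a, c)
    simpa [h0] using this
  have h2 : 𝔼 a, Real.exp (t * (g a - 𝔼 b, g b)) ≤ Real.exp (t ^ 2 * V / 2) := by
    refine h g (fun a b => ?_) t
    rw [hg]
    simp only
    rw [← Finset.expect_sub_distrib]
    calc 𝔼 c, (f (a, c) - f (b, c)) ≤ 𝔼 _c : Ω', d a b := by
          apply Finset.expect_le_expect
          intro c _
          have := hf (a, c) (b, c)
          simpa [h0'] using this
      _ = d a b := Fintype.expect_const _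
  rw [hmean]
  calc 𝔼 x : Ω × Ω', Real.exp (t * (f x - 𝔼 b, g b))
      = 𝔼 a, 𝔼 b, Real.exp (t * (g a - 𝔼 b, g b)) * Real.exp (t * (f (a, b) - g a)) := by
        rw [← Finset.univ_product_univ, Finset.expect_product]
        apply Finset.expect_congr rfl
        intro a _
        apply Finset.expect_congr rfl
        intro b _
        rw [← Real.exp_add]
        congr 1
        ring
    _ ≤ 𝔼 a, Real.exp (t * (g a - 𝔼 b, g b)) * Real.exp (t ^ 2 * V' / 2) := by
        apply Finset.expect_le_expect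
        intro a _
        rw [← Finset.mul_expect]
        gcongr
        exact h1 a
    _ = (𝔼 a, Real.exp (t * (g a - 𝔼 b, g b))) * Real.exp (t ^ 2 * V' / 2) := by
        rw [Finset.expect_mul]
    _ ≤ Real.exp (t ^ 2 * V / 2) * Real.exp (t ^ 2 * V' / 2) := by gcongr
    _ = Real.exp (t ^ 2 * (V + V') / 2) := by
        rw [← Real.exp_add]; congr 1; ring

/-- finite powers -/
theorem SubG.pi_fin [Nonempty Ω] {d : Ω → Ω → ℝ} {V : ℝ} (h : SubG d V) (h0 : ∀ a, d a a = 0)
    (n : ℕ) : SubG (fun a b : Fin n → Ω => ∑ i, d (a i) (b i)) (n * V) := by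
  induction n with
  | zero =>
    intro f hf t
    have h1 : ∀ a, f a = f default := fun a => by rw [Subsingleton.elim a default]
    simp [h1]
  | succ n ih =>
    have h1 := h.prod ih h0 (fun a => by simp [h0])
    have h2 := h1.equiv (Fin.consEquiv (fun _ : Fin (n + 1) => Ω)).symm
    refine h2.mono (fun a b => ?_) (by push_cast; linarith)
    rw [Fin.sum_univ_succ]
    rfl

/-- finite powers -/
theorem SubG.pi [Nonempty Ω] {ι : Type*} [Fintype ι] [DecidableEq ι] {d : Ω → Ω → ℝ} {V : ℝ} (h : SubG d V)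
    (h0 : ∀ a, d a a = 0) :
    SubG (fun a b : ι → Ω => ∑ i, d (a i) (b i)) (Fintype.card ι * V) := by
  have h1 := h.pi_fin h0 (Fintype.card ι)
  have e := Fintype.equivFin ι
  have h2 := h1.equiv (Equiv.arrowCongr e (Equiv.refl Ω))
  refine h2.mono (fun a b => ?_) le_rfl
  apply le_of_eq
  rw [← e.sum_comp]
  simp [Equiv.arrowCongr]

/-- the maximum of a finite family of Lipschitz functions: `j` selects one of the functions,
depending on the point -/
theorem SubG.select [Nonempty Ω] {J : Type*} [Fintype J] [Nonempty J] {d : Ω → Ω → ℝ} {V : ℝ}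
    (h : SubG d V) (F : J → Ω → ℝ) (hF : ∀ j a b, F j a - F j b ≤ d a b) (j : Ω → J) {t : ℝ}
    (ht : 0 < t) : 𝔼 a, (F (j a) a - 𝔼 b, F (j a) b) ≤
      Real.log (Fintype.card J) / t + t * V / 2 := by
  set u : ℝ := Real.log (Fintype.card J) + t ^ 2 * V / 2 with hu
  have hJ : (0 : ℝ) < Fintype.card J := by exact_mod_cast Fintype.card_pos
  have h1 : ∀ a, t * (F (j a) a - 𝔼 b, F (j a) b) ≤
      u - 1 + Real.exp (-u) * ∑ i, Real.exp (t * (F i a - 𝔼 b, F i b)) := by
    intro a
    have h2 := Real.add_one_le_exp (t * (F (j a) a - 𝔼 b, F (j a) b) - u)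
    have h3 : Real.exp (t * (F (j a) a - 𝔼 b, F (j a) b) - u) ≤
        Real.exp (-u) * ∑ i, Real.exp (t * (F i a - 𝔼 b, F i b)) := by
      rw [sub_eq_neg_add, Real.exp_add]
      gcongr
      exact Finset.single_le_sum (f := fun i => Real.exp (t * (F i a - 𝔼 b, F i b)))
        (fun i _ => (Real.exp_pos _).le) (Finset.mem_univ (j a))
    linarith
  have h4 : t * 𝔼 a, (F (j a) a - 𝔼 b, F (j a) b) ≤ u := by
    rw [Finset.mul_expect]
    calc 𝔼 a, t * (F (j a) a - 𝔼 b, F (j a) b)
        ≤ 𝔼 a, (u - 1 + Real.exp (-u) * ∑ i, Real.exp (t * (F i a - 𝔼 b, F i b))) :=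
          Finset.expect_le_expect (fun a _ => h1 a)
      _ = u - 1 + Real.exp (-u) * ∑ i, 𝔼 a, Real.exp (t * (F i a - 𝔼 b, F i b)) := by
          rw [Finset.expect_add_distrib, Fintype.expect_const, ← Finset.mul_expect,
            Finset.expect_sum_comm]
      _ ≤ u - 1 + Real.exp (-u) * ∑ _i : J, Real.exp (t ^ 2 * V / 2) := by
          gcongr with i _
          exact h (F i) (hF i) t
      _ = u := by
          rw [Finset.sum_const, Finset.card_univ, nsmul_eq_mul]
          have h5 : Real.exp (-u) * (Fintype.card J * Real.exp (t ^ 2 * V / 2)) = 1 := by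
            conv_lhs => rw [← Real.exp_log hJ]
            rw [← Real.exp_add, ← Real.exp_add, hu]
            have : -(Real.log (Fintype.card J) + t ^ 2 * V / 2) +
              (Real.log (Fintype.card J) + t ^ 2 * V / 2) = 0 := by ring
            rw [this, Real.exp_zero]
          linarith
  have h6 : 𝔼 a, (F (j a) a - 𝔼 b, F (j a) b) ≤ u / t := by
    rw [le_div_iff₀ ht]
    linarith
  refine h6.trans (le_of_eq ?_)
  rw [hu]
  field_simp

end

end Pool.Agent.Helper95.RL
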