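import Mathlib
import Pool.Agent.Helper95.RL.Conc
import Pool.Agent.Helper95.RL.Blow

/-!
Random structures: random injections with a family of (independent) sets labelled by a fixed set of
labels.
-/

namespace Pool.Agent.Helper95.RL

open Finset Function
open scoped BigOperators

/-- A random injection `σ ω : X → Y` together with sets `I ω p ⊆ X`, `p ∈ P`. -/
structure Str (Ω X Y P : Type*) where
  /-- the injection -/
  σ : Ω → X → Y
  inj : ∀ ω, Injective (σ ω)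
  /-- the sets -/
  I : Ω → P → Finset X

variable {Ω X Y P : Type*} [Fintype Ω] [Fintype X] [Fintype Y] [Fintype P]

/-- the maximal weight of a set of the family -/
noncomputable def Str.M [Nonempty P] (S : Str Ω X Y P) (ω : Ω) (W : X → Y → ℝ) : ℝ :=
  Mx (S.σ ω) (S.I ω) W

/-- the two-sided `L²` bound -/
def Str.Op [Nonempty P] (S : Str Ω X Y P) (ρ : ℝ) : Prop :=
  ∀ (w : X → ℝ) (v : Y → ℝ), (∀ x, 0 ≤ w x) → (∀ y, 0 ≤ v y) →
    𝔼 ω, S.M ω (fun x y => w x * v y) ≤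
      ρ * Fintype.card X * √(𝔼 x, w x ^ 2) * √(𝔼 y, v y ^ 2)

/-- the position of every point is spread over `Y` -/
def Str.Mix [DecidableEq Y] (S : Str Ω X Y P) (C : ℝ) : Prop :=
  ∀ x y, 𝔼 ω, (if S.σ ω x = y then (1 : ℝ) else 0) ≤ C / Fintype.card Y

/-- the weights of the sets are Lipschitz functions of the random point -/
structure Str.Lip (S : Str Ω X Y P) (d : Ω → Ω → ℝ) : Prop where
  nonneg : ∀ a b, 0 ≤ d a b
  refl : ∀ a, d a a = 0
  lip : ∀ (W : X → Y → ℝ), (∀ x y, 0 ≤ W x y) → (∀ x y, W x y ≤ 1) → ∀ p a b,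
    ∑ x ∈ S.I a p, W x (S.σ a x) - ∑ x ∈ S.I b p, W x (S.σ b x) ≤ d a b

/-- the weight of a single set, for weights bounded by `B` -/
theorem Str.Lip.scaled {S : Str Ω X Y P} {d : Ω → Ω → ℝ} (h : S.Lip d) {B : ℝ} (hB : 0 ≤ B)
    (W : X → Y → ℝ) (h0 : ∀ x y, 0 ≤ W x y) (h1 : ∀ x y, W x y ≤ B) (p : P) (a b : Ω) :
    ∑ x ∈ S.I a p, W x (S.σ a x) - ∑ x ∈ S.I b p, W x (S.σ b x) ≤ B * d a b := by
  rcases hB.eq_or_lt with rfl | hB
  · have hW : ∀ x y, W x y = 0 := fun x y => le_antisymm (h1 x y) (h0 x y)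
    simp [hW]
  · have h2 := h.lip (fun x y => W x y / B) (fun x y => div_nonneg (h0 x y) hB.le)
      (fun x y => (div_le_one hB).mpr (h1 x y)) p a b
    rw [← Finset.sum_div, ← Finset.sum_div, ← sub_div, div_le_iff₀ hB] at h2
    linarith

/-- the maximal weight, for weights bounded by `B` -/
theorem Str.Lip.M_le [Nonempty P] {S : Str Ω X Y P} {d : Ω → Ω → ℝ} (h : S.Lip d) {B : ℝ}
    (hB : 0 ≤ B) (W : X → Y → ℝ) (h0 : ∀ x y, 0 ≤ W x y) (h1 : ∀ x y, W x y ≤ B) (a b : Ω) :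
    S.M a W - S.M b W ≤ B * d a b := by
  obtain ⟨p, hp⟩ := exists_Mx (S.σ a) (S.I a) W
  have h2 := h.scaled hB W h0 h1 p a b
  have h3 := le_Mx (S.σ b) (S.I b) W p
  unfold Str.M
  rw [hp]
  linarith

end Pool.Agent.Helper95.RL
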