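import Mathlib
import Pool.Agent.Helper95.RL.Str

/-!
The column inequality.
-/

namespace Pool.Agent.Helper95.RL

open Finset Function
open scoped BigOperators

/-- A function of two points of a product space which depends on the first point only through the
coordinates in `S` and on the second one only through the other coordinates has the same mean on the
diagonal. -/
theorem decouple {ι Ω : Type*} [Fintype ι] [DecidableEq ι] [Fintype Ω] [Nonempty Ω] (S : Finset ι)
    (G : (ι → Ω) → (ι → Ω) → ℝ) (h1 : ∀ α α' ω, (∀ i ∈ S, α i = α' i) → G α ω = G α' ω)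
    (h2 : ∀ α ω ω', (∀ i, i ∉ S → ω i = ω' i) → G α ω = G α ω') :
    𝔼 ω, G ω ω = 𝔼 α, 𝔼 ω, G α ω := by
  let mix : (ι → Ω) → (ι → Ω) → ι → Ω := fun α ω i => if i ∈ S then α i else ω i
  have hinv : Involutive (fun p : (ι → Ω) × (ι → Ω) => (mix p.1 p.2, mix p.2 p.1)) := by
    rintro ⟨α, ω⟩
    simp only [mix, Prod.mk.injEq]
    constructor <;> funext i <;> split_ifs <;> rfl
  let e : ((ι → Ω) × (ι → Ω)) ≃ ((ι → Ω) × (ι → Ω)) := hinv.toPerm
  have h3 : 𝔼 α, 𝔼 ω, G α ω = 𝔼 p : (ι → Ω) × (ι → Ω), G p.1 p.2 := by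
    rw [← Finset.univ_product_univ, Finset.expect_product]
  have h4 : 𝔼 p : (ι → Ω) × (ι → Ω), G p.1 p.2 = 𝔼 p : (ι → Ω) × (ι → Ω), G p.1 p.1 := by
    refine Fintype.expect_equiv e _ _ (fun p => ?_)
    change G p.1 p.2 = G (mix p.1 p.2) (mix p.1 p.2)
    rw [h1 (mix p.1 p.2) p.1 _ (fun i hi => by simp [mix, hi])]
    exact h2 _ _ _ (fun i hi => by simp [mix, hi])
  rw [h3, h4, ← Finset.univ_product_univ, Finset.expect_product]
  simp

/-- the second moment of the mean of a sample -/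
theorem sample_sq {m m' : ℕ} (hm : 0 < m) (hm' : 0 < m') (x : Fin m → ℝ) {T : ℝ} (h0 : ∀ a, 0 ≤ x a)
    (h1 : ∀ a, x a ≤ T) :
    𝔼 A : Fin m' → Fin m, (𝔼 k, x (A k)) ^ 2 ≤ (𝔼 a, x a) ^ 2 + T ^ 2 / m' := by
  have : NeZero m := ⟨hm.ne'⟩
  have : NeZero m' := ⟨hm'.ne'⟩
  have hm0 : (0 : ℝ) < m' := by exact_mod_cast hm'
  have hT : 0 ≤ T := (h0 0).trans (h1 0)
  have e1 : ∀ A : Fin m' → Fin m, (𝔼 k, x (A k)) ^ 2 = 𝔼 k, 𝔼 l, x (A k) * x (A l) := by
    intro A
    rw [sq, Finset.expect_mul]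
    simp only [Finset.mul_expect]
  simp only [e1]
  rw [Finset.expect_comm]
  have e2 : ∀ k, 𝔼 A : Fin m' → Fin m, 𝔼 l, x (A k) * x (A l) =
      𝔼 l, 𝔼 A : Fin m' → Fin m, x (A k) * x (A l) := fun k => Finset.expect_comm _ _ _
  simp only [e2]
  have e3 : ∀ k l : Fin m', 𝔼 A : Fin m' → Fin m, x (A k) * x (A l) ≤
      (𝔼 a, x a) ^ 2 + if l = k then T ^ 2 else 0 := by
    intro k l
    by_cases h : l = k
    · subst h
      simp only [if_true]
      have h2 : 𝔼 A : Fin m' → Fin m, x (A l) * x (A l) ≤ 𝔼 _A : Fin m' → Fin m, T ^ 2 := by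
        apply Finset.expect_le_expect
        intro A _
        rw [sq]
        exact mul_le_mul (h1 _) (h1 _) (h0 _) hT
      rw [Fintype.expect_const] at h2
      nlinarith [sq_nonneg (𝔼 a, x a)]
    · simp only [h, if_false, add_zero]
      have h3 := decouple (Ω := Fin m) ({k} : Finset (Fin m')) (fun α ω => x (α k) * x (ω l))
        (fun α α' ω hh => by simp only [hh k (Finset.mem_singleton_self k)])
        (fun α ω ω' hh => by simp only [hh l (by simpa using h)])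
      rw [h3]
      simp only [← Finset.mul_expect, ← Finset.expect_mul]
      rw [expect_apply k x, expect_apply l x, sq]
  calc 𝔼 k : Fin m', 𝔼 l : Fin m', 𝔼 A : Fin m' → Fin m, x (A k) * x (A l)
      ≤ 𝔼 k : Fin m', 𝔼 l : Fin m', ((𝔼 a, x a) ^ 2 + if l = k then T ^ 2 else 0) :=
        Finset.expect_le_expect (fun k _ => Finset.expect_le_expect (fun l _ => e3 k l))
    _ = (𝔼 a, x a) ^ 2 + T ^ 2 / m' := by
        simp only [Finset.expect_add_distrib, Fintype.expect_const]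
        congr 1
        have : ∀ k : Fin m', 𝔼 l : Fin m', (if l = k then T ^ 2 else 0) = T ^ 2 / m' := by
          intro k
          rw [Fintype.expect_eq_sum_div_card]
          simp
        simp only [this, Fintype.expect_const]

section column

variable {Ω X R P : Type*} [Fintype Ω] [Nonempty Ω] [Fintype X] [Fintype R] [DecidableEq R]
  [Nonempty R] [Fintype P] [Nonempty P]

/-- the weight which the set `p` puts on the position `r` -/
def Str.load (S : Str Ω X R P) (w : X → ℝ) (ω : Ω) (p : P) (r : R) : ℝ :=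
  ∑ x ∈ S.I ω p, if S.σ ω x = r then w x else 0

omit [Fintype Ω] [Nonempty Ω] [Fintype X] [Fintype R] [Nonempty R] [Fintype P] [Nonempty P] in
theorem Str.load_nonneg (S : Str Ω X R P) {w : X → ℝ} (h0 : ∀ x, 0 ≤ w x) (ω : Ω) (p : P) (r : R) :
    0 ≤ S.load w ω p r :=
  Finset.sum_nonneg (fun x _ => by split_ifs; exacts [h0 x, le_rfl])

omit [Fintype Ω] [Nonempty Ω] [Fintype X] [Fintype R] [Nonempty R] [Fintype P] [Nonempty P] in
theorem Str.load_le (S : Str Ω X R P) {w : X → ℝ} {T : ℝ} (hT : 0 ≤ T) (h1 : ∀ x, w x ≤ T) (ω : Ω) (p : P) (r : R) :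
    S.load w ω p r ≤ T := by
  classical
  unfold Str.load
  by_cases h : ∃ x ∈ S.I ω p, S.σ ω x = r
  · obtain ⟨x, hx, hr⟩ := h
    rw [Finset.sum_eq_single x]
    · rw [if_pos hr]; exact h1 x
    · intro z _ hz
      rw [if_neg]
      intro h2
      exact hz (S.inj ω (h2.trans hr.symm))
    · intro h; exact absurd hx h
  · push Not at h
    rw [Finset.sum_eq_zero (fun x hx => if_neg (h x hx))]
    exact hT

omit [Fintype Ω] [Nonempty Ω] [Fintype X] [Nonempty R] [Fintype P] [Nonempty P] in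
theorem Str.expect_load_mul (S : Str Ω X R P) (w : X → ℝ) (ω : Ω) (p : P) (ψ : R → ℝ) :
    𝔼 r, S.load w ω p r * ψ r = (∑ x ∈ S.I ω p, w x * ψ (S.σ ω x)) / Fintype.card R := by
  rw [Fintype.expect_eq_sum_div_card]
  congr 1
  unfold Str.load
  simp only [Finset.sum_mul]
  rw [Finset.sum_comm]
  apply Finset.sum_congr rfl
  intro x _
  rw [Finset.sum_eq_single (S.σ ω x)]
  · simp
  · intro r _ hr
    rw [if_neg (Ne.symm hr), zero_mul]
  · intro h; exact absurd (Finset.mem_univ _) h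

/-- the test function given by a sample of columns -/
noncomputable def Str.psi (S : Str Ω X R P) {m m' : ℕ} (w : Fin m → X → ℝ) (A : Fin m' → Fin m)
    (α : Fin m → Ω) (q : Fin m' → P) (r : R) : ℝ := 𝔼 k, S.load (w (A k)) (α (A k)) (q k) r

/-- the mean over the other columns of the largest weight against a test function -/
noncomputable def Str.zed (S : Str Ω X R P) {m m' : ℕ} (w : Fin m → X → ℝ) (A : Fin m' → Fin m)
    (ω : Fin m → Ω) (ψ : R → ℝ) : ℝ :=
  𝔼 a, if a ∈ Finset.univ.image A then 0 else S.M (ω a) (fun x r => w a x * ψ r) / Fintype.card R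

omit [DecidableEq R] in
theorem Str.zed_mean (S : Str Ω X R P) {ρ : ℝ} (hρ : 0 ≤ ρ) (hop : S.Op ρ) {m m' : ℕ}
    (w : Fin m → X → ℝ) (h0 : ∀ a x, 0 ≤ w a x) (A : Fin m' → Fin m) (ψ : R → ℝ)
    (hψ : ∀ r, 0 ≤ ψ r) :
    𝔼 ω : Fin m → Ω, S.zed w A ω ψ ≤
      (ρ * Fintype.card X / Fintype.card R) * √(𝔼 a, 𝔼 x, w a x ^ 2) * √(𝔼 r, ψ r ^ 2) := by
  unfold Str.zed
  rw [Finset.expect_comm]
  have hR : (0 : ℝ) < Fintype.card R := by exact_mod_cast Fintype.card_pos
  have h1 : ∀ a : Fin m, 𝔼 ω : Fin m → Ω, (if a ∈ Finset.univ.image A then 0 else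
      S.M (ω a) (fun x r => w a x * ψ r) / Fintype.card R) ≤
      (ρ * Fintype.card X / Fintype.card R * √(𝔼 r, ψ r ^ 2)) * √(𝔼 x, w a x ^ 2) := by
    intro a
    by_cases h : a ∈ Finset.univ.image A
    · simp only [h, if_true, Finset.expect_const_zero]
      positivity
    · simp only [h, if_false]
      rw [← Finset.expect_div, expect_apply a (fun ω => S.M ω (fun x r => w a x * ψ r)),
        div_le_iff₀ hR]
      refine (hop (w a) ψ (h0 a) hψ).trans (le_of_eq ?_)
      field_simp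
  calc 𝔼 a : Fin m, 𝔼 ω : Fin m → Ω, (if a ∈ Finset.univ.image A then 0 else
      S.M (ω a) (fun x r => w a x * ψ r) / Fintype.card R)
      ≤ 𝔼 a : Fin m, (ρ * Fintype.card X / Fintype.card R * √(𝔼 r, ψ r ^ 2)) *
          √(𝔼 x, w a x ^ 2) := Finset.expect_le_expect (fun a _ => h1 a)
    _ = (ρ * Fintype.card X / Fintype.card R * √(𝔼 r, ψ r ^ 2)) *
          𝔼 a : Fin m, √(𝔼 x, w a x ^ 2) := by rw [Finset.mul_expect]
    _ ≤ (ρ * Fintype.card X / Fintype.card R * √(𝔼 r, ψ r ^ 2)) *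
          √(𝔼 a, 𝔼 x, w a x ^ 2) := by
        gcongr
        apply Real.le_sqrt_of_sq_le
        refine (sq_expect_le _).trans (le_of_eq ?_)
        apply Finset.expect_congr rfl
        intro a _
        exact Real.sq_sqrt (Finset.expect_nonneg (fun x _ => sq_nonneg _))
    _ = _ := by ring

omit [Nonempty Ω] [DecidableEq R] [Nonempty R] in
theorem Str.zed_lip (S : Str Ω X R P) {d : Ω → Ω → ℝ} (hlip : S.Lip d) {m m' : ℕ}
    (w : Fin m → X → ℝ) {T : ℝ} (hT : 0 ≤ T) (h0 : ∀ a x, 0 ≤ w a x) (h1 : ∀ a x, w a x ≤ T)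
    (A : Fin m' → Fin m) (ψ : R → ℝ) (hψ : ∀ r, 0 ≤ ψ r) (hψ1 : ∀ r, ψ r ≤ T) (ω ω' : Fin m → Ω) :
    S.zed w A ω ψ - S.zed w A ω' ψ ≤ (T ^ 2 / (m * Fintype.card R)) * ∑ a, d (ω a) (ω' a) := by
  unfold Str.zed
  rw [← Finset.expect_sub_distrib]
  have h2 : ∀ a : Fin m, (if a ∈ Finset.univ.image A then 0 else
      S.M (ω a) (fun x r => w a x * ψ r) / Fintype.card R) - (if a ∈ Finset.univ.image A then 0 else
      S.M (ω' a) (fun x r => w a x * ψ r) / Fintype.card R) ≤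
      T ^ 2 / Fintype.card R * d (ω a) (ω' a) := by
    intro a
    have hd := hlip.nonneg (ω a) (ω' a)
    by_cases h : a ∈ Finset.univ.image A
    · simp only [h, if_true, sub_self]
      positivity
    · simp only [h, if_false]
      rw [← sub_div, div_mul_eq_mul_div]
      gcongr
      apply hlip.M_le (by positivity)
      · intro x y; exact mul_nonneg (h0 a x) (hψ y)
      · intro x y
        rw [sq]
        exact mul_le_mul (h1 a x) (hψ1 y) (hψ y) hT
  calc _ ≤ 𝔼 a : Fin m, T ^ 2 / Fintype.card R * d (ω a) (ω' a) :=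
        Finset.expect_le_expect (fun a _ => h2 a)
    _ = _ := by
        rw [← Finset.mul_expect, Fintype.expect_eq_sum_div_card, Fintype.card_fin]
        rw [div_mul_div_comm, div_mul_eq_mul_div]
        congr 1
        ring

/-- the family of functions in the union bound -/
noncomputable def Str.fam (S : Str Ω X R P) {m m' : ℕ} (w : Fin m → X → ℝ) (A : Fin m' → Fin m)
    (α : Fin m → Ω) (j : Option (Fin m' → P)) (ω : Fin m → Ω) : ℝ :=
  match j with
  | none => 0
  | some q => S.zed w A ω (S.psi w A α q)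

/-- the largest deviation -/
noncomputable def Str.dev (S : Str Ω X R P) {m m' : ℕ} (w : Fin m → X → ℝ) (A : Fin m' → Fin m)
    (α ω : Fin m → Ω) : ℝ :=
  Finset.univ.sup' Finset.univ_nonempty
    (fun j : Option (Fin m' → P) => S.fam w A α j ω - 𝔼 ω', S.fam w A α j ω')

omit [Nonempty Ω] [Fintype X] [Nonempty R] in
theorem Str.dev_nonneg (S : Str Ω X R P) {m m' : ℕ} (w : Fin m → X → ℝ) (A : Fin m' → Fin m)
    (α ω : Fin m → Ω) : 0 ≤ S.dev w A α ω := by
  have := Finset.le_sup' (fun j : Option (Fin m' → P) => S.fam w A α j ω -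
    𝔼 ω', S.fam w A α j ω') (Finset.mem_univ none)
  refine le_trans (le_of_eq ?_) this
  simp [Str.fam]

omit [Nonempty Ω] [Fintype X] [Nonempty R] in
theorem Str.le_dev (S : Str Ω X R P) {m m' : ℕ} (w : Fin m → X → ℝ) (A : Fin m' → Fin m)
    (α ω : Fin m → Ω) (q : Fin m' → P) : S.zed w A ω (S.psi w A α q) ≤
      𝔼 ω', S.zed w A ω' (S.psi w A α q) + S.dev w A α ω := by
  have := Finset.le_sup' (fun j : Option (Fin m' → P) => S.fam w A α j ω -
    𝔼 ω', S.fam w A α j ω') (Finset.mem_univ (some q))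
  simp only [Str.fam] at this
  have h2 : S.zed w A ω (S.psi w A α q) - 𝔼 ω', S.zed w A ω' (S.psi w A α q) ≤
    S.dev w A α ω := this
  linarith

theorem Str.dev_mean (S : Str Ω X R P) {d : Ω → Ω → ℝ} {V : ℝ} (hlip : S.Lip d) (hsub : SubG d V)
    {m m' : ℕ} (hm' : 0 < m') (w : Fin m → X → ℝ) {T : ℝ} (hT : 0 ≤ T) (h0 : ∀ a x, 0 ≤ w a x)
    (h1 : ∀ a x, w a x ≤ T) (A : Fin m' → Fin m) (α : Fin m → Ω) {τ : ℝ} (hτ : 0 < τ) :
    𝔼 ω, S.dev w A α ω ≤ Real.log (Fintype.card P ^ m' + 1) / τ +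
      τ * ((T ^ 2 / (m * Fintype.card R)) ^ 2 * (m * V)) / 2 := by
  classical
  have : NeZero m' := ⟨hm'.ne'⟩
  have hex : ∀ ω, ∃ j : Option (Fin m' → P), S.dev w A α ω =
      S.fam w A α j ω - 𝔼 ω', S.fam w A α j ω' := by
    intro ω
    obtain ⟨j, -, hj⟩ := Finset.exists_mem_eq_sup' Finset.univ_nonempty
      (fun j : Option (Fin m' → P) => S.fam w A α j ω - 𝔼 ω', S.fam w A α j ω')
    exact ⟨j, hj⟩
  choose j hj using hex
  simp only [hj]
  have hsub2 : SubG (fun ω ω' : Fin m → Ω => (T ^ 2 / (m * Fintype.card R)) *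
      ∑ a, d (ω a) (ω' a)) ((T ^ 2 / (m * Fintype.card R)) ^ 2 * (m * V)) := by
    have h2 := (hsub.pi (ι := Fin m) hlip.refl).scale
      (show 0 ≤ T ^ 2 / ((m : ℝ) * Fintype.card R) by positivity)
    rwa [Fintype.card_fin] at h2
  have h2 := hsub2.select (S.fam w A α) (fun j ω ω' => by
    cases j with
    | none =>
      simp only [Str.fam, sub_self]
      have : 0 ≤ ∑ a, d (ω a) (ω' a) := Finset.sum_nonneg (fun a _ => hlip.nonneg _ _)
      positivity
    | some q =>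
      simp only [Str.fam]
      apply S.zed_lip hlip w hT h0 h1
      · intro r
        exact Finset.expect_nonneg (fun k _ => S.load_nonneg (h0 _) _ _ _)
      · intro r
        calc S.psi w A α q r ≤ 𝔼 _k : Fin m', T :=
              Finset.expect_le_expect (fun k _ => S.load_le hT (h1 _) _ _ _)
          _ = T := Fintype.expect_const T) j hτ
  refine h2.trans (le_of_eq ?_)
  congr 3
  simp

omit [Fintype X] [Nonempty R] in
theorem Str.dev_decouple (S : Str Ω X R P) {m m' : ℕ} (w : Fin m → X → ℝ) (A : Fin m' → Fin m) :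
    𝔼 ω, S.dev w A ω ω = 𝔼 α, 𝔼 ω, S.dev w A α ω := by
  classical
  apply decouple (Finset.univ.image A)
  · intro α α' ω h
    have h2 : ∀ q, S.psi w A α q = S.psi w A α' q := by
      intro q
      funext r
      unfold Str.psi
      apply Finset.expect_congr rfl
      intro k _
      rw [h (A k) (Finset.mem_image_of_mem A (Finset.mem_univ k))]
    have h3 : ∀ j ω, S.fam w A α j ω = S.fam w A α' j ω := by
      intro j ω
      cases j with
      | none => rfl
      | some q => simp only [Str.fam, h2 q]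
    unfold Str.dev
    simp only [h3]
  · intro α ω ω' h
    have h3 : ∀ j, S.fam w A α j ω = S.fam w A α j ω' := by
      intro j
      cases j with
      | none => rfl
      | some q =>
        simp only [Str.fam, Str.zed]
        apply Finset.expect_congr rfl
        intro a _
        by_cases h4 : a ∈ Finset.univ.image A
        · simp only [h4, if_true]
        · simp only [h4, if_false, h a h4]
    unfold Str.dev
    simp only [h3]

/-- The column inequality for a fixed point. -/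
theorem Str.column_point (S : Str Ω X R P) {ρ : ℝ} (hρ : 0 ≤ ρ) (hop : S.Op ρ) {m m' : ℕ}
    (hm : 0 < m) (hm' : 0 < m') (w : Fin m → X → ℝ) {T : ℝ} (hT : 0 ≤ T) (h0 : ∀ a x, 0 ≤ w a x)
    (h1 : ∀ a x, w a x ≤ T) (ω : Fin m → Ω) (p : Fin m → P) :
    𝔼 r, (𝔼 a, S.load (w a) (ω a) (p a) r) ^ 2 ≤
      (ρ * Fintype.card X / Fintype.card R) ^ 2 * (𝔼 a, 𝔼 x, w a x ^ 2) +
      2 * (T ^ 2 / m' + m' * T ^ 2 / m + 𝔼 A : Fin m' → Fin m, S.dev w A ω ω) := by
  classical
  have : NeZero m := ⟨hm.ne'⟩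
  have : NeZero m' := ⟨hm'.ne'⟩
  have hR : (0 : ℝ) < Fintype.card R := by exact_mod_cast Fintype.card_pos
  have hm0 : (0 : ℝ) < m := by exact_mod_cast hm
  set x : R → Fin m → ℝ := fun r a => S.load (w a) (ω a) (p a) r with hx
  have hx0 : ∀ r a, 0 ≤ x r a := fun r a => S.load_nonneg (h0 a) _ _ _
  have hx1 : ∀ r a, x r a ≤ T := fun r a => S.load_le hT (h1 a) _ _ _
  set B : ℝ := 𝔼 r, (𝔼 a, x r a) ^ 2 with hB
  have hB0 : 0 ≤ B := Finset.expect_nonneg (fun r _ => sq_nonneg _)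
  set W : ℝ := 𝔼 a, 𝔼 x, w a x ^ 2 with hW
  have hW0 : 0 ≤ W := Finset.expect_nonneg (fun a _ => Finset.expect_nonneg (fun x _ => sq_nonneg _))
  set a0 : ℝ := (ρ * Fintype.card X / Fintype.card R) * √W with ha0
  have ha00 : 0 ≤ a0 := by positivity
  set D : ℝ := 𝔼 A : Fin m' → Fin m, S.dev w A ω ω with hD
  have hphi : ∀ r, 𝔼 A : Fin m' → Fin m, 𝔼 k, x r (A k) = 𝔼 a, x r a := by
    intro r
    rw [Finset.expect_comm]
    simp only [expect_apply (Y := Fin m') _ (x r), Fintype.expect_const]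
  -- the square of the mean as a mean of inner products
  have e1 : B = 𝔼 A : Fin m' → Fin m, 𝔼 r, (𝔼 a, x r a) * (𝔼 k, x r (A k)) := by
    rw [Finset.expect_comm, hB]
    apply Finset.expect_congr rfl
    intro r _
    rw [← Finset.mul_expect, hphi r, sq]
  have e2 : ∀ A : Fin m' → Fin m, 𝔼 r, (𝔼 a, x r a) * (𝔼 k, x r (A k)) ≤
      m' * T ^ 2 / m + (a0 * √(𝔼 r, (𝔼 k, x r (A k)) ^ 2) + S.dev w A ω ω) := by
    intro A
    have hpsi : ∀ r, S.psi w A ω (fun k => p (A k)) r = 𝔼 k, x r (A k) := fun r => rfl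
    have hpsi0 : ∀ r, 0 ≤ 𝔼 k, x r (A k) := fun r => Finset.expect_nonneg (fun k _ => hx0 r _)
    have hpsi1 : ∀ r, 𝔼 k, x r (A k) ≤ T := fun r => by
      calc 𝔼 k, x r (A k) ≤ 𝔼 _k : Fin m', T := Finset.expect_le_expect (fun k _ => hx1 r _)
        _ = T := Fintype.expect_const T
    have h2 : 𝔼 r, (𝔼 a, x r a) * (𝔼 k, x r (A k)) = 𝔼 a, 𝔼 r, x r a * (𝔼 k, x r (A k)) := by
      simp only [Finset.expect_mul]
      exact Finset.expect_comm _ _ _
    have h3 : ∀ a : Fin m, 𝔼 r, x r a * (𝔼 k, x r (A k)) ≤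
        (if a ∈ Finset.univ.image A then T ^ 2 else 0) + (if a ∈ Finset.univ.image A then 0 else
        S.M (ω a) (fun z r => w a z * 𝔼 k, x r (A k)) / Fintype.card R) := by
      intro a
      by_cases h : a ∈ Finset.univ.image A
      · simp only [h, if_true, add_zero]
        calc 𝔼 r, x r a * (𝔼 k, x r (A k)) ≤ 𝔼 _r : R, T ^ 2 := by
              apply Finset.expect_le_expect
              intro r _
              rw [sq]
              exact mul_le_mul (hx1 r a) (hpsi1 r) (hpsi0 r) hT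
          _ = T ^ 2 := Fintype.expect_const _
      · simp only [h, if_false, zero_add]
        have h4 := S.expect_load_mul (w a) (ω a) (p a) (fun r => 𝔼 k, x r (A k))
        rw [h4]
        gcongr
        exact le_Mx (S.σ (ω a)) (S.I (ω a)) (fun z r => w a z * 𝔼 k, x r (A k)) (p a)
    have h5 : 𝔼 a : Fin m, (if a ∈ Finset.univ.image A then T ^ 2 else 0) ≤ m' * T ^ 2 / m := by
      rw [Fintype.expect_eq_sum_div_card, Fintype.card_fin, ← Finset.sum_filter, Finset.sum_const,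
        nsmul_eq_mul]
      gcongr
      have h6 : (Finset.univ.filter (fun a => a ∈ Finset.univ.image A)) = Finset.univ.image A := by
        ext a; simp
      rw [h6]
      have := Finset.card_image_le (s := (Finset.univ : Finset (Fin m'))) (f := A)
      simpa using this
    have h7 := S.le_dev w A ω ω (fun k => p (A k))
    have h8 := S.zed_mean hρ hop w h0 A (S.psi w A ω (fun k => p (A k))) (fun r => hpsi0 r)
    calc 𝔼 r, (𝔼 a, x r a) * (𝔼 k, x r (A k)) = 𝔼 a, 𝔼 r, x r a * (𝔼 k, x r (A k)) := h2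
      _ ≤ 𝔼 a : Fin m, ((if a ∈ Finset.univ.image A then T ^ 2 else 0) +
          (if a ∈ Finset.univ.image A then 0 else
          S.M (ω a) (fun z r => w a z * 𝔼 k, x r (A k)) / Fintype.card R)) :=
          Finset.expect_le_expect (fun a _ => h3 a)
      _ ≤ m' * T ^ 2 / m + S.zed w A ω (S.psi w A ω (fun k => p (A k))) := by
          rw [Finset.expect_add_distrib]
          exact add_le_add h5 le_rfl
      _ ≤ _ := by
          gcongr
          refine h7.trans ?_
          gcongr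
          exact h8
  have e3 : 𝔼 A : Fin m' → Fin m, √(𝔼 r, (𝔼 k, x r (A k)) ^ 2) ≤ √(B + T ^ 2 / m') := by
    apply Real.le_sqrt_of_sq_le
    refine (sq_expect_le _).trans ?_
    have h2 : ∀ A : Fin m' → Fin m, √(𝔼 r, (𝔼 k, x r (A k)) ^ 2) ^ 2 =
        𝔼 r, (𝔼 k, x r (A k)) ^ 2 := fun A =>
      Real.sq_sqrt (Finset.expect_nonneg (fun r _ => sq_nonneg _))
    simp only [h2]
    rw [Finset.expect_comm]
    calc 𝔼 r, 𝔼 A : Fin m' → Fin m, (𝔼 k, x r (A k)) ^ 2
        ≤ 𝔼 r, ((𝔼 a, x r a) ^ 2 + T ^ 2 / m') :=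
          Finset.expect_le_expect (fun r _ => sample_sq hm hm' (x r) (hx0 r) (hx1 r))
      _ = B + T ^ 2 / m' := by
          rw [Finset.expect_add_distrib, Fintype.expect_const]
  have e4 : B ≤ m' * T ^ 2 / m + (a0 * √(B + T ^ 2 / m') + D) := by
    calc B = 𝔼 A : Fin m' → Fin m, 𝔼 r, (𝔼 a, x r a) * (𝔼 k, x r (A k)) := e1
      _ ≤ 𝔼 A : Fin m' → Fin m, (m' * T ^ 2 / m + (a0 * √(𝔼 r, (𝔼 k, x r (A k)) ^ 2) +
          S.dev w A ω ω)) := Finset.expect_le_expect (fun A _ => e2 A)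
      _ = m' * T ^ 2 / m + (a0 * 𝔼 A : Fin m' → Fin m, √(𝔼 r, (𝔼 k, x r (A k)) ^ 2) + D) := by
          rw [Finset.expect_add_distrib, Finset.expect_add_distrib, Fintype.expect_const,
            Finset.mul_expect]
      _ ≤ _ := by gcongr
  have hsq : √(B + T ^ 2 / m') ^ 2 = B + T ^ 2 / m' := Real.sq_sqrt (by positivity)
  have ha02 : a0 ^ 2 = (ρ * Fintype.card X / Fintype.card R) ^ 2 * W := by
    rw [ha0, mul_pow, Real.sq_sqrt hW0]
  have hTm : 0 ≤ T ^ 2 / m' := by positivity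
  nlinarith [sq_nonneg (a0 - √(B + T ^ 2 / m'))]

/-- The column inequality: whatever sets are chosen, the mean of the loads of `m` independent columns
has a small `L²` norm. -/
theorem Str.column (S : Str Ω X R P) {ρ : ℝ} (hρ : 0 ≤ ρ) (hop : S.Op ρ) {d : Ω → Ω → ℝ} {V : ℝ}
    (hlip : S.Lip d) (hsub : SubG d V) {m m' : ℕ} (hm : 0 < m) (hm' : 0 < m')
    (w : Fin m → X → ℝ) {T : ℝ} (hT : 0 ≤ T) (h0 : ∀ a x, 0 ≤ w a x) (h1 : ∀ a x, w a x ≤ T)
    (p : (Fin m → Ω) → Fin m → P) {τ : ℝ} (hτ : 0 < τ) :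
    𝔼 ω : Fin m → Ω, 𝔼 r, (𝔼 a, S.load (w a) (ω a) (p ω a) r) ^ 2 ≤
      (ρ * Fintype.card X / Fintype.card R) ^ 2 * (𝔼 a, 𝔼 x, w a x ^ 2) +
      2 * (T ^ 2 / m' + m' * T ^ 2 / m + (Real.log (Fintype.card P ^ m' + 1) / τ +
        τ * ((T ^ 2 / (m * Fintype.card R)) ^ 2 * (m * V)) / 2)) := by
  have : NeZero m := ⟨hm.ne'⟩
  have : NeZero m' := ⟨hm'.ne'⟩
  have h2 : 𝔼 ω : Fin m → Ω, 𝔼 A : Fin m' → Fin m, S.dev w A ω ω ≤
      Real.log (Fintype.card P ^ m' + 1) / τ +
        τ * ((T ^ 2 / (m * Fintype.card R)) ^ 2 * (m * V)) / 2 := by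
    rw [Finset.expect_comm]
    calc 𝔼 A : Fin m' → Fin m, 𝔼 ω : Fin m → Ω, S.dev w A ω ω
        = 𝔼 A : Fin m' → Fin m, 𝔼 α : Fin m → Ω, 𝔼 ω, S.dev w A α ω :=
          Finset.expect_congr rfl (fun A _ => S.dev_decouple w A)
      _ ≤ 𝔼 _A : Fin m' → Fin m, 𝔼 _α : Fin m → Ω, _ :=
          Finset.expect_le_expect (fun A _ => Finset.expect_le_expect (fun α _ =>
            S.dev_mean hlip hsub hm' w hT h0 h1 A α hτ))
      _ = _ := by rw [Fintype.expect_const, Fintype.expect_const]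
  calc 𝔼 ω : Fin m → Ω, 𝔼 r, (𝔼 a, S.load (w a) (ω a) (p ω a) r) ^ 2
      ≤ 𝔼 ω : Fin m → Ω, ((ρ * Fintype.card X / Fintype.card R) ^ 2 * (𝔼 a, 𝔼 x, w a x ^ 2) +
      2 * (T ^ 2 / m' + m' * T ^ 2 / m + 𝔼 A : Fin m' → Fin m, S.dev w A ω ω)) :=
        Finset.expect_le_expect (fun ω _ => S.column_point hρ hop hm hm' w hT h0 h1 ω (p ω))
    _ = (ρ * Fintype.card X / Fintype.card R) ^ 2 * (𝔼 a, 𝔼 x, w a x ^ 2) +
      2 * (T ^ 2 / m' + m' * T ^ 2 / m + 𝔼 ω : Fin m → Ω, 𝔼 A : Fin m' → Fin m, S.dev w A ω ω) := by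
        rw [Finset.expect_add_distrib, Fintype.expect_const, ← Finset.mul_expect,
          Finset.expect_add_distrib, Fintype.expect_const]
    _ ≤ _ := by gcongr

end column

end Pool.Agent.Helper95.RL
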