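import Mathlib
import Pool.Agent.Helper95.RL.Str

/-!
Definitions: visibility, covering by the labelled sets, blow-up and composition of structures.
-/

namespace Pool.Agent.Helper95.RL

open Finset Function
open scoped BigOperators

/-- `v` and `w` are the lower left and upper right corner of a rectangle containing no other
point -/
def Vis {V α β : Type*} [LinearOrder α] [LinearOrder β] (kx : V → α) (ky : V → β) (v w : V) : Prop :=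
  kx v < kx w ∧ ky v < ky w ∧
    ∀ z, kx v ≤ kx z → kx z ≤ kx w → ky v ≤ ky z → ky z ≤ ky w → z = v ∨ z = w

/-- every set without visible pairs is contained in a labelled set -/
def Str.Cov {Ω X Y P α β : Type*} [LinearOrder α] [LinearOrder β] (S : Str Ω X Y P) (kx : X → α)
    (ky : Y → β) : Prop :=
  ∀ ω (A : Finset X), (∀ x ∈ A, ∀ x' ∈ A, ¬ Vis kx (fun z => ky (S.σ ω z)) x x') →
    ∃ p, A ⊆ S.I ω p

theorem jit_injective {b : ℕ} (s : Fin b) : Injective (jit s) := by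
  intro h h' hh
  have := congrArg Fin.val hh
  simp only [jit] at this
  exact Fin.ext (by omega)

/-- every point is replaced by a jittered decreasing chain of length `b` -/
def Str.blow {Ω X Y P : Type*} (S : Str Ω X Y P) (b : ℕ) :
    Str (Ω × (Y → Fin b)) (X × Fin b) (Y × Fin (2 * b)) P where
  σ ω x := (S.σ ω.1 x.1, jit (ω.2 (S.σ ω.1 x.1)) x.2)
  inj ω := by
    rintro ⟨x, h⟩ ⟨x', h'⟩ hh
    have h1 : x = x' := S.inj ω.1 (congrArg Prod.fst hh)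
    subst h1
    have h2 : h = h' := jit_injective _ (congrArg Prod.snd hh)
    rw [h2]
  I ω p := S.I ω.1 p ×ˢ Finset.univ

/-- The composition: the rows (indexed by `Y₂`) are independent copies of `S₁`, the columns (indexed
by `X₁`) are independent copies of `S₂`. -/
noncomputable def Str.comp {Ω₁ X₁ Y₁ P₁ Ω₂ X₂ Y₂ P₂ : Type*} [Fintype X₁] [Fintype X₂] (S₁ : Str Ω₁ X₁ Y₁ P₁)
    (S₂ : Str Ω₂ X₂ Y₂ P₂) :
    Str ((Y₂ → Ω₁) × (X₁ → Ω₂)) (X₁ × X₂) (Y₂ × Y₁) ((Y₂ → P₁) × (X₁ → P₂)) where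
  σ ω x := (S₂.σ (ω.2 x.1) x.2, S₁.σ (ω.1 (S₂.σ (ω.2 x.1) x.2)) x.1)
  inj ω := by
    rintro ⟨x, z⟩ ⟨x', z'⟩ hh
    have h1 : S₂.σ (ω.2 x) z = S₂.σ (ω.2 x') z' := congrArg Prod.fst hh
    have h2 : S₁.σ (ω.1 (S₂.σ (ω.2 x) z)) x = S₁.σ (ω.1 (S₂.σ (ω.2 x') z')) x' :=
      congrArg Prod.snd hh
    rw [h1] at h2
    have h3 := S₁.inj _ h2
    subst h3
    have h4 := S₂.inj _ h1
    rw [h4]
  I ω p := by
    classical
    exact Finset.univ.filter (fun x => x.2 ∈ S₂.I (ω.2 x.1) (p.2 x.1) ∧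
      x.1 ∈ S₁.I (ω.1 (S₂.σ (ω.2 x.1) x.2)) (p.1 (S₂.σ (ω.2 x.1) x.2)))

theorem Str.mem_comp {Ω₁ X₁ Y₁ P₁ Ω₂ X₂ Y₂ P₂ : Type*} [Fintype X₁] [Fintype X₂]
    (S₁ : Str Ω₁ X₁ Y₁ P₁) (S₂ : Str Ω₂ X₂ Y₂ P₂) (ω : (Y₂ → Ω₁) × (X₁ → Ω₂))
    (p : (Y₂ → P₁) × (X₁ → P₂)) (x : X₁ × X₂) : x ∈ (S₁.comp S₂).I ω p ↔
      x.2 ∈ S₂.I (ω.2 x.1) (p.2 x.1) ∧
      x.1 ∈ S₁.I (ω.1 (S₂.σ (ω.2 x.1) x.2)) (p.1 (S₂.σ (ω.2 x.1) x.2)) := by
  simp [Str.comp]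

end Pool.Agent.Helper95.RL
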